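import Pool.Agent.Q269.GT.Stm
import Pool.Agent.H341R2.WeilSharp

/-!
# Project GT, job CNT: the distribution of the symbols
-/

set_option autoImplicit false
set_option linter.all false

open scoped Classical
open Polynomial Module Finset

namespace Pool.Agent.Q177.GT

open Pool.Agent.Y164.HG (F2)
open Pool.Agent.Q269.GT

/-- the character of the field with two elements -/
noncomputable def psi (a : F2) : ℝ := if a = 0 then 1 else -1

theorem psi_zero : psi 0 = 1 := if_pos rfl
theorem psi_one : psi 1 = -1 := if_neg one_ne_zero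
theorem F2c (a : F2) : a = 0 ∨ a = 1 := by revert a; decide

theorem psi_add (a b : F2) : psi (a + b) = psi a * psi b := by
  have h11 : (1 : F2) + 1 = 0 := by decide
  rcases F2c a with rfl | rfl <;> rcases F2c b with rfl | rfl
  · rw [add_zero, psi_zero]; norm_num
  · rw [zero_add, psi_zero, psi_one]; norm_num
  · rw [add_zero, psi_zero, psi_one]; norm_num
  · rw [h11, psi_zero, psi_one]; norm_num

theorem psi_sum {I : Type*} (s : Finset I) (f : I → F2) : psi (∑ i ∈ s, f i) = ∏ i ∈ s, psi (f i) := by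
  induction s using Finset.induction with
  | empty => rw [Finset.sum_empty, Finset.prod_empty, psi_zero]
  | insert a s ha ih => rw [Finset.sum_insert ha, Finset.prod_insert ha, psi_add, ih]

theorem sum_psi (r : ℕ) (v : Fin r → F2) :
    ∑ c : Fin r → F2, psi (∑ j, c j * v j) = ∏ j, (1 + psi (v j)) := by
  have h1 : ∀ j, (1 + psi (v j)) = ∑ a : F2, psi (a * v j) := by
    intro j
    have h2 : (Finset.univ : Finset F2) = {0, 1} := by decide
    rw [h2, Finset.sum_pair (by decide), zero_mul, one_mul, psi_zero]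
  rw [Finset.prod_congr rfl fun j _ => h1 j, Finset.prod_univ_sum]
  rw [Fintype.piFinset_univ]
  refine Finset.sum_congr rfl fun c _ => ?_
  rw [psi_sum]

theorem psi_ge (a : F2) : 0 ≤ 1 + psi a := by
  rcases F2c a with rfl | rfl
  · rw [psi_zero]; norm_num
  · rw [psi_one]; norm_num

theorem sum_psi_nonneg (r : ℕ) (v : Fin r → F2) : 0 ≤ ∑ c : Fin r → F2, psi (∑ j, c j * v j) := by
  rw [sum_psi]
  exact Finset.prod_nonneg fun j _ => psi_ge _

theorem sum_psi_zero (r : ℕ) : ∑ c : Fin r → F2, psi (∑ j, c j * (0 : Fin r → F2) j) = 2 ^ r := by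
  rw [sum_psi]
  have : ∀ j : Fin r, 1 + psi ((0 : Fin r → F2) j) = 2 := by
    intro j
    rw [Pi.zero_apply, psi_zero]
    norm_num
  rw [Finset.prod_congr rfl fun j _ => this j, Finset.prod_const, Finset.card_univ, Fintype.card_fin]

theorem geom_lt (q : ℕ) (hq : 2 ≤ q) (n : ℕ) : ∑ i ∈ Finset.range n, q ^ i < q ^ n := by
  induction n with
  | zero => simp
  | succ n ih =>
    rw [Finset.sum_range_succ, pow_succ]
    nlinarith [pow_pos (show 0 < q by omega) n]

theorem geom_le (q : ℕ) (hq : 2 ≤ q) (n : ℕ) : ∑ i ∈ Finset.Icc 1 n, q ^ i ≤ 2 * q ^ n := by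
  have h1 : ∑ i ∈ Finset.Icc 1 n, q ^ i ≤ ∑ i ∈ Finset.range (n + 1), q ^ i := by
    refine Finset.sum_le_sum_of_subset ?_
    intro i hi
    rw [Finset.mem_Icc] at hi
    rw [Finset.mem_range]
    omega
  rw [Finset.sum_range_succ] at h1
  have h2 := geom_lt q hq n
  omega

section pol

variable {E : Type} [Field E]

theorem fac_deg (n : ℕ) (hn : 2 ≤ n) : (X - X ^ n : E[X]).natDegree = n := by
  have h : (X - X ^ n : E[X]) = -(X ^ n - X) := by ring
  rw [h, natDegree_neg, natDegree_sub_eq_left_of_natDegree_lt]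
  · exact natDegree_X_pow n
  · rw [natDegree_X_pow, natDegree_X]
    omega

theorem fac_ne (n : ℕ) (hn : 2 ≤ n) : (X - X ^ n : E[X]) ≠ 0 := by
  intro h
  have := fac_deg (E := E) n hn
  rw [h, natDegree_zero] at this
  omega

theorem prod_deg (q : ℕ) (hq : 2 ≤ q) (I : Finset ℕ) (hI : ∀ i ∈ I, 1 ≤ i) :
    (∏ i ∈ I, (X - X ^ (q ^ i) : E[X])).natDegree = ∑ i ∈ I, q ^ i := by
  have hqi : ∀ i ∈ I, 2 ≤ q ^ i := fun i hi =>
    hq.trans (Nat.le_self_pow (by have := hI i hi; omega) q)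
  rw [natDegree_prod _ _ fun i hi => fac_ne _ (hqi i hi)]
  exact Finset.sum_congr rfl fun i hi => fac_deg _ (hqi i hi)

theorem not_sq (q : ℕ) (hq : 2 ≤ q) (hqE : (q : E) = 0) (I : Finset ℕ) (hI : ∀ i ∈ I, 1 ≤ i)
    (hne : I.Nonempty) (a : E) (h : E[X]) : ∏ i ∈ I, (X - X ^ (q ^ i) : E[X]) ≠ C a * h ^ 2 := by
  intro heq
  have hqi : ∀ i ∈ I, 2 ≤ q ^ i := fun i hi =>
    hq.trans (Nat.le_self_pow (by have := hI i hi; omega) q)
  have hg0 : ∏ i ∈ I, (X - X ^ (q ^ i) : E[X]) ≠ 0 :=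
    Finset.prod_ne_zero_iff.2 fun i hi => fac_ne _ (hqi i hi)
  have ha0 : a ≠ 0 := by
    rintro rfl
    rw [C_0, zero_mul] at heq
    exact hg0 heq
  obtain ⟨n, hn⟩ : ∃ n, n = I.max' hne := ⟨_, rfl⟩
  have hnI : n ∈ I := by rw [hn]; exact I.max'_mem hne
  have hle : ∀ i ∈ I, i ≤ n := fun i hi => by rw [hn]; exact I.le_max' i hi
  have hsep : (X - X ^ (q ^ n) : E[X]).Separable := by
    rw [separable_def]
    have h1 : derivative (X - X ^ (q ^ n) : E[X]) = 1 := by
      rw [derivative_sub, derivative_X, derivative_X_pow, Nat.cast_pow, hqE,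
        zero_pow (by have := hI n hnI; omega), C_0, zero_mul, sub_zero]
    rw [h1]
    exact isCoprime_one_right
  have hsf : Squarefree (X - X ^ (q ^ n) : E[X]) := hsep.squarefree
  rw [← Finset.mul_prod_erase I _ hnI] at heq
  obtain ⟨g, hg⟩ : ∃ g, g = ∏ i ∈ I.erase n, (X - X ^ (q ^ i) : E[X]) := ⟨_, rfl⟩
  rw [← hg] at heq
  have hg0' : g ≠ 0 := by
    rw [hg]
    exact Finset.prod_ne_zero_iff.2 fun i hi => fac_ne _ (hqi i (Finset.mem_of_mem_erase hi))
  have hf0 := fac_ne (E := E) (q ^ n) (hqi n hnI)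
  have hdvd : (X - X ^ (q ^ n) : E[X]) ∣ h ^ 2 := by
    have h1 : (X - X ^ (q ^ n) : E[X]) ∣ C a * h ^ 2 := ⟨g, heq.symm⟩
    exact ((isUnit_C.2 (isUnit_iff_ne_zero.2 ha0)).dvd_mul_left).1 h1
  have hdvd2 : (X - X ^ (q ^ n) : E[X]) ∣ h := (hsf.dvd_pow_iff_dvd two_ne_zero).1 hdvd
  obtain ⟨t, ht⟩ := hdvd2
  have h2 : (X - X ^ (q ^ n) : E[X]) ∣ g := by
    refine ⟨C a * t ^ 2, ?_⟩
    apply mul_left_cancel₀ hf0
    rw [heq, ht]
    ring
  have h3 := natDegree_le_of_dvd h2 hg0'
  rw [fac_deg _ (hqi n hnI), hg, prod_deg q hq _ fun i hi => hI i (Finset.mem_of_mem_erase hi)] at h3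
  have h4 : ∑ i ∈ I.erase n, q ^ i ≤ ∑ i ∈ Finset.range n, q ^ i := by
    refine Finset.sum_le_sum_of_subset ?_
    intro i hi
    rw [Finset.mem_range]
    have h5 := hle i (Finset.mem_of_mem_erase hi)
    have h6 := Finset.ne_of_mem_erase hi
    omega
  have h5 := geom_lt q hq n
  omega

end pol

section frob

variable {k E : Type} [Field k] [Finite k] [Field E] [Finite E] [Algebra k E]

theorem pow_range {θ : E} (h : θ ∈ Set.range (algebraMap k E)) (i : ℕ) : θ ^ (Nat.card k ^ i) = θ := by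
  obtain ⟨x, rfl⟩ := h
  have : Fintype k := Fintype.ofFinite k
  rw [← map_pow, Nat.card_eq_fintype_card, FiniteField.pow_card_pow]

theorem mem_range_of_pow {θ : E} (h : θ ^ Nat.card k = θ) : θ ∈ Set.range (algebraMap k E) := by
  have : Fintype k := Fintype.ofFinite k
  have : Fintype E := Fintype.ofFinite E
  have hq : 1 < Nat.card k := Finite.one_lt_card
  have hne : (X ^ Nat.card k - X : E[X]) ≠ 0 := FiniteField.X_pow_card_sub_X_ne_zero E hq
  have hdeg : (X ^ Nat.card k - X : E[X]).natDegree = Nat.card k :=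
    FiniteField.X_pow_card_sub_X_natDegree_eq E hq
  have h1 : (univ.image (algebraMap k E)) ⊆ (X ^ Nat.card k - X : E[X]).roots.toFinset := by
    intro z hz
    rw [Finset.mem_image] at hz
    obtain ⟨x, _, rfl⟩ := hz
    rw [Multiset.mem_toFinset, mem_roots hne, IsRoot, eval_sub, eval_pow, eval_X, sub_eq_zero]
    have := pow_range (k := k) (E := E) (θ := algebraMap k E x) ⟨x, rfl⟩ 1
    rw [pow_one] at this
    exact this
  have h2 : (X ^ Nat.card k - X : E[X]).roots.toFinset.card ≤ (univ.image (algebraMap k E)).card := by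
    rw [Finset.card_image_of_injective _ (algebraMap k E).injective, Finset.card_univ,
      ← Nat.card_eq_fintype_card]
    exact ((Multiset.toFinset_card_le _).trans (card_roots' _)).trans hdeg.le
  have h3 := Finset.eq_of_subset_of_card_le h1 h2
  have h4 : θ ∈ (X ^ Nat.card k - X : E[X]).roots.toFinset := by
    rw [Multiset.mem_toFinset, mem_roots hne, IsRoot, eval_sub, eval_pow, eval_X, sub_eq_zero]
    exact h
  rw [← h3, Finset.mem_image] at h4
  obtain ⟨x, _, hx⟩ := h4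
  exact ⟨x, hx⟩

theorem pow_ne {m : ℕ} (hm : m.Prime) (hfin : finrank k E = m) {θ : E}
    (h : θ ∉ Set.range (algebraMap k E)) (i : ℕ) (hi1 : 1 ≤ i) (him : i < m) :
    θ ^ (Nat.card k ^ i) ≠ θ := by
  intro h0
  apply h
  apply mem_range_of_pow
  have : Fintype E := Fintype.ofFinite E
  have hcE : Nat.card E = Nat.card k ^ m := by
    rw [Module.natCard_eq_pow_finrank (K := k), hfin]
  have hit : ∀ n, (fun z : E => z ^ Nat.card k)^[n] θ = θ ^ (Nat.card k ^ n) := by
    intro n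
    induction n with
    | zero => simp
    | succ n ih => rw [Function.iterate_succ_apply', ih, ← pow_mul, pow_succ]
  have h1 : Function.IsPeriodicPt (fun z : E => z ^ Nat.card k) i θ := by
    show (fun z : E => z ^ Nat.card k)^[i] θ = θ
    rw [hit, h0]
  have h2 : Function.IsPeriodicPt (fun z : E => z ^ Nat.card k) m θ := by
    show (fun z : E => z ^ Nat.card k)^[m] θ = θ
    rw [hit, ← hcE, Nat.card_eq_fintype_card, FiniteField.pow_card]
  have h3 := h1.gcd h2
  have h4 : Nat.gcd i m = 1 := by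
    have h5 : Nat.Coprime m i := (Nat.Prime.coprime_iff_not_dvd hm).2
      (fun hd => absurd (Nat.le_of_dvd (by omega) hd) (by omega))
    exact h5.symm
  rw [h4] at h3
  have h5 : (fun z : E => z ^ Nat.card k)^[1] θ = θ := h3
  rw [hit, pow_one] at h5
  exact h5

end frob

/-- coordinates -/
theorem exists_P (Y : Type) [AddCommGroup Y] [Module F2 Y] (β : ℕ → Y) (M u : ℕ) (hu : u ≤ M) :
    ∃ (r : ℕ) (P : Submodule.span F2 (β '' Set.Icc 1 M) →ₗ[F2] (Fin r → F2))
      (bb : ℕ → Submodule.span F2 (β '' Set.Icc 1 M)),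
      (∀ i, 1 ≤ i → i ≤ M → (bb i : Y) = β i) ∧ (∀ i, M - u < i → i ≤ M → P (bb i) = 0) ∧
      Nat.card (Submodule.span F2 (β '' Set.Icc 1 M)) ≤ 2 ^ r * 2 ^ u ∧
      ∀ c : Fin r → F2, c ≠ 0 → ∃ i, 1 ≤ i ∧ i ≤ M - u ∧ ∑ j, c j * P (bb i) j = 1 := by
  obtain ⟨Y0, hY0⟩ : ∃ Y0, Y0 = Submodule.span F2 (β '' Set.Icc 1 M) := ⟨_, rfl⟩
  rw [← hY0]
  have hfd : FiniteDimensional F2 Y0 := by
    rw [hY0]
    exact FiniteDimensional.span_of_finite F2 ((Set.finite_Icc 1 M).image β)
  have hmem : ∀ i, 1 ≤ i → i ≤ M → β i ∈ Y0 := by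
    intro i h1 h2
    rw [hY0]
    exact Submodule.subset_span ⟨i, ⟨h1, h2⟩, rfl⟩
  let bb : ℕ → Y0 := fun i => if h : 1 ≤ i ∧ i ≤ M then ⟨β i, hmem i h.1 h.2⟩ else 0
  have hbb : ∀ i, 1 ≤ i → i ≤ M → (bb i : Y) = β i := by
    intro i h1 h2
    simp only [bb]
    rw [dif_pos ⟨h1, h2⟩]
  let U : Submodule F2 Y0 := Submodule.span F2 (((Finset.Ioc (M - u) M).image bb : Finset Y0) : Set Y0)
  have hUr : finrank F2 U ≤ u := by
    refine (finrank_span_finset_le_card _).trans ?_
    refine Finset.card_image_le.trans ?_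
    rw [Nat.card_Ioc]
    omega
  have hUc : Nat.card U ≤ 2 ^ u := by
    rw [Module.natCard_eq_pow_finrank (K := F2), Nat.card_zmod]
    exact Nat.pow_le_pow_right (by norm_num) hUr
  let e := (Module.finBasis F2 (Y0 ⧸ U)).equivFun
  let P : Y0 →ₗ[F2] (Fin (finrank F2 (Y0 ⧸ U)) → F2) := e.toLinearMap ∘ₗ U.mkQ
  have hP0 : ∀ w ∈ U, P w = 0 := by
    intro w hw
    show e (U.mkQ w) = 0
    rw [Submodule.mkQ_apply, (Submodule.Quotient.mk_eq_zero U).2 hw, map_zero]
  have hPs : Function.Surjective P := e.surjective.comp (Submodule.mkQ_surjective U)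
  have hPb : ∀ i, M - u < i → i ≤ M → P (bb i) = 0 := by
    intro i h1 h2
    apply hP0
    refine Submodule.subset_span ?_
    rw [Finset.mem_coe, Finset.mem_image]
    exact ⟨i, Finset.mem_Ioc.2 ⟨h1, h2⟩, rfl⟩
  refine ⟨finrank F2 (Y0 ⧸ U), P, bb, hbb, hPb, ?_, ?_⟩
  · have h1 : Nat.card Y0 = Nat.card U * Nat.card (Y0 ⧸ U) := by
      rw [Module.natCard_eq_pow_finrank (K := F2) (V := Y0), Module.natCard_eq_pow_finrank (K := F2) (V := U),
        Module.natCard_eq_pow_finrank (K := F2) (V := Y0 ⧸ U), ← pow_add, add_comm,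
        Submodule.finrank_quotient_add_finrank]
    have h2 : Nat.card (Y0 ⧸ U) = 2 ^ finrank F2 (Y0 ⧸ U) := by
      rw [Module.natCard_eq_pow_finrank (K := F2) (V := Y0 ⧸ U), Nat.card_zmod]
    rw [h1, h2, mul_comm]
    exact Nat.mul_le_mul_left _ hUc
  · intro c hc
    by_contra hcon
    push Not at hcon
    apply hc
    let L : (Fin (finrank F2 (Y0 ⧸ U)) → F2) →ₗ[F2] F2 :=
      { toFun := fun a => ∑ j, c j * a j
        map_add' := fun a b => by
          simp only [Pi.add_apply, mul_add, Finset.sum_add_distrib]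
        map_smul' := fun t a => by
          simp only [Pi.smul_apply, smul_eq_mul, RingHom.id_apply, Finset.mul_sum]
          exact Finset.sum_congr rfl fun j _ => by ring }
    have h1 : ∀ w : Y0, L (P w) = 0 := by
      intro w
      have h2 : ∀ z : Y, ∀ hz : z ∈ Submodule.span F2 (β '' Set.Icc 1 M), ∀ hz' : z ∈ Y0,
          L (P ⟨z, hz'⟩) = 0 := by
        intro z hz
        induction hz using Submodule.span_induction with
        | mem x hx =>
          obtain ⟨i, ⟨hi1, hi2⟩, rfl⟩ := hx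
          intro hz'
          have h3 : (⟨β i, hz'⟩ : Y0) = bb i := Subtype.ext (hbb i hi1 hi2).symm
          rw [h3]
          by_cases hi : i ≤ M - u
          · rcases F2c (L (P (bb i))) with h4 | h4
            · exact h4
            · exact absurd h4 (hcon i hi1 hi)
          · rw [hPb i (by omega) hi2, map_zero]
        | zero =>
          intro hz'
          have h3 : (⟨0, hz'⟩ : Y0) = 0 := rfl
          rw [h3, map_zero, map_zero]
        | add x y hx hy ihx ihy =>
          intro hz'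
          have hx' : x ∈ Y0 := by rw [hY0]; exact hx
          have hy' : y ∈ Y0 := by rw [hY0]; exact hy
          have h3 : (⟨x + y, hz'⟩ : Y0) = ⟨x, hx'⟩ + ⟨y, hy'⟩ := rfl
          rw [h3, map_add, map_add, ihx hx', ihy hy', add_zero]
        | smul a x hx ihx =>
          intro hz'
          have hx' : x ∈ Y0 := by rw [hY0]; exact hx
          have h3 : (⟨a • x, hz'⟩ : Y0) = a • ⟨x, hx'⟩ := rfl
          rw [h3, map_smul, map_smul, ihx hx', smul_zero]
      exact h2 w.1 (by rw [← hY0]; exact w.2) w.2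
    funext j
    obtain ⟨w, hw⟩ := hPs (Pi.single j 1)
    have h2 := h1 w
    rw [hw] at h2
    have h3 : ∑ l, c l * (Pi.single j (1 : F2) : Fin (finrank F2 (Y0 ⧸ U)) → F2) l = 0 := h2
    rw [Finset.sum_eq_single j] at h3
    · rw [Pi.single_eq_same, mul_one] at h3
      exact h3
    · intro l _ hl
      rw [Pi.single_eq_of_ne hl, mul_zero]
    · intro h
      exact absurd (Finset.mem_univ _) h

theorem t_CNT : S_CNT := by
  intro k E _ _ _ _ _ m hchar hm hodd hfin Y _ _ β y u hu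
  have : Fintype k := Fintype.ofFinite k
  have : Fintype E := Fintype.ofFinite E
  obtain ⟨M, hM⟩ : ∃ M, M = (m - 1) / 2 := ⟨_, rfl⟩
  rw [← hM] at hu ⊢
  obtain ⟨q, hq⟩ : ∃ q, q = Nat.card k := ⟨_, rfl⟩
  rw [← hq]
  have hq2 : 2 ≤ q := by rw [hq]; exact Finite.one_lt_card
  have hm3 : 3 ≤ m := by
    have := hm.two_le
    obtain ⟨t, ht⟩ := hodd
    omega
  have hMm : M < m := by omega
  have hcE : Fintype.card E = q ^ m := by
    rw [← Nat.card_eq_fintype_card, Module.natCard_eq_pow_finrank (K := k), hfin, hq]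
  have hcharE : ringChar E ≠ 2 := by
    have h1 : ringChar E = ringChar k := by
      have hk : CharP k (ringChar k) := ringChar.charP k
      have hE : CharP E (ringChar k) := charP_of_injective_algebraMap (algebraMap k E).injective _
      exact ringChar.eq E (ringChar k)
    rw [h1]
    exact hchar
  have hqE : (q : E) = 0 := by
    have h1 : ((Nat.card k : ℕ) : k) = 0 := by
      rw [Nat.card_eq_fintype_card]
      exact FiniteField.cast_card_eq_zero k
    have h2 := congrArg (algebraMap k E) h1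
    rw [map_natCast, map_zero, ← hq] at h2
    exact h2
  have hq0 : (0 : ℝ) < q := by exact_mod_cast (by omega : 0 < q)
  obtain ⟨T, hT⟩ : ∃ T : Set E, T = {θ : E | θ ∉ Set.range (algebraMap k E) ∧
      ∑ i ∈ Finset.Icc 1 M, sg k θ i • β i = y} := ⟨_, rfl⟩
  rw [← hT]
  obtain ⟨r, P, bb, hbb, hPb, hcard, hdual⟩ := exists_P Y β M u hu
  have hYfin : 0 < Nat.card (Submodule.span F2 (β '' Set.Icc 1 M)) := by
    have : FiniteDimensional F2 (Submodule.span F2 (β '' Set.Icc 1 M)) :=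
      FiniteDimensional.span_of_finite F2 ((Set.finite_Icc 1 M).image β)
    have : Finite (Submodule.span F2 (β '' Set.Icc 1 M)) := Module.finite_of_finite F2
    exact Nat.card_pos
  by_cases hyY : y ∈ Submodule.span F2 (β '' Set.Icc 1 M)
  swap
  · have hTe : T = ∅ := by
      rw [Set.eq_empty_iff_forall_notMem]
      intro θ hθ
      rw [hT] at hθ
      apply hyY
      rw [← hθ.2]
      refine Submodule.sum_mem _ fun i hi => Submodule.smul_mem _ _ (Submodule.subset_span ?_)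
      rw [Finset.mem_Icc] at hi
      exact ⟨i, ⟨hi.1, hi.2⟩, rfl⟩
    rw [hTe, Set.ncard_empty]
    push_cast
    positivity
  -- the vectors
  obtain ⟨a, ha⟩ : ∃ a : ℕ → Fin r → F2, ∀ i, a i = P (bb i) := ⟨fun i => P (bb i), fun _ => rfl⟩
  obtain ⟨y0, hy0⟩ : ∃ y0, y0 = P ⟨y, hyY⟩ := ⟨_, rfl⟩
  have hTv : ∀ θ ∈ T, ∑ i ∈ Finset.Icc 1 (M - u), sg k θ i • a i = y0 := by
    intro θ hθ
    rw [hT] at hθ
    have h1 : (∑ i ∈ Finset.Icc 1 M, sg k θ i • bb i) = ⟨y, hyY⟩ := by
      apply Subtype.ext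
      rw [← Submodule.subtype_apply, map_sum]
      refine Eq.trans ?_ hθ.2
      refine Finset.sum_congr rfl fun i hi => ?_
      rw [Finset.mem_Icc] at hi
      rw [map_smul, Submodule.subtype_apply, hbb i hi.1 hi.2]
    have h2 := congrArg P h1
    rw [map_sum, ← hy0] at h2
    rw [← h2]
    refine Finset.sum_subset_zero_on_sdiff ?_ ?_ ?_
    · intro i hi
      rw [Finset.mem_Icc] at hi ⊢
      omega
    · intro i hi
      rw [Finset.mem_sdiff, Finset.mem_Icc, Finset.mem_Icc] at hi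
      rw [map_smul, hPb i (by omega) hi.1.2, smul_zero]
    · intro i _
      rw [map_smul, ha]
  -- the function
  obtain ⟨fac, hfac⟩ : ∃ fac : (Fin r → F2) → ℕ → E → ℝ, ∀ c i θ, fac c i θ =
    if ∑ j, c j * a i j = 1 then (quadraticChar E (θ - θ ^ (q ^ i)) : ℝ) else 1 :=
    ⟨_, fun _ _ _ => rfl⟩
  obtain ⟨G, hG⟩ : ∃ G : E → ℝ, ∀ θ, G θ = ∑ c : Fin r → F2, psi (∑ j, c j * y0 j) *
    ∏ i ∈ Finset.Icc 1 (M - u), fac c i θ := ⟨_, fun _ => rfl⟩
  have hGout : ∀ θ, θ ∉ Set.range (algebraMap k E) → G θ = ∑ c : Fin r → F2,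
      psi (∑ j, c j * (y0 + ∑ i ∈ Finset.Icc 1 (M - u), sg k θ i • a i) j) := by
    intro θ hθ
    rw [hG]
    refine Finset.sum_congr rfl fun c _ => ?_
    have h1 : ∀ i ∈ Finset.Icc 1 (M - u), fac c i θ = psi (sg k θ i * ∑ j, c j * a i j) := by
      intro i hi
      rw [Finset.mem_Icc] at hi
      rw [hfac]
      rcases F2c (∑ j, c j * a i j) with h2 | h2
      · rw [h2, if_neg zero_ne_one, mul_zero, psi_zero]
      · rw [h2, if_pos rfl, mul_one]
        have h3 : θ - θ ^ (q ^ i) ≠ 0 := by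
          intro h4
          have h5 := pow_ne (k := k) hm hfin hθ i hi.1 (by omega)
          apply h5
          rw [← hq]
          exact (sub_eq_zero.1 h4).symm
        unfold sg
        rw [← hq]
        by_cases h4 : IsSquare (θ - θ ^ (q ^ i))
        · rw [if_pos h4, psi_zero, (quadraticChar_one_iff_isSquare h3).2 h4]
          norm_num
        · rw [if_neg h4, psi_one, quadraticChar_neg_one_iff_not_isSquare.2 h4]
          norm_num
    rw [Finset.prod_congr rfl h1, ← psi_sum, ← psi_add]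
    congr 1
    simp only [Pi.add_apply, Finset.sum_apply, Pi.smul_apply, smul_eq_mul, mul_add,
      Finset.sum_add_distrib]
    congr 1
    simp only [Finset.mul_sum]
    rw [Finset.sum_comm]
    refine Finset.sum_congr rfl fun j _ => Finset.sum_congr rfl fun i _ => ?_
    ring
  have hGin : ∀ θ, θ ∈ Set.range (algebraMap k E) → 0 ≤ G θ := by
    intro θ hθ
    rw [hG]
    refine Finset.sum_nonneg fun c _ => ?_
    by_cases hc : c = 0
    · rw [hc]
      simp only [Pi.zero_apply, zero_mul, Finset.sum_const_zero, psi_zero, one_mul]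
      refine Finset.prod_nonneg fun i _ => ?_
      rw [hfac]
      simp
    · obtain ⟨i, hi1, hi2, hi3⟩ := hdual c hc
      rw [Finset.prod_eq_zero (Finset.mem_Icc.2 ⟨hi1, hi2⟩), mul_zero]
      rw [hfac, ha, if_pos hi3, hq, pow_range hθ, sub_self, quadraticChar_zero]
      norm_num
  have hG0 : ∀ θ, 0 ≤ G θ := by
    intro θ
    by_cases hθ : θ ∈ Set.range (algebraMap k E)
    · exact hGin θ hθ
    · rw [hGout θ hθ]
      exact sum_psi_nonneg r _
  have hGT : ∀ θ ∈ T, G θ = 2 ^ r := by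
    intro θ hθ
    have h1 := hTv θ hθ
    have h2 : θ ∉ Set.range (algebraMap k E) := by
      rw [hT] at hθ
      exact hθ.1
    rw [hGout θ h2, h1]
    have h3 : y0 + y0 = 0 := by
      funext j
      exact Pool.Agent.Y164.HG.F2_add_self _
    rw [h3]
    exact sum_psi_zero r
  have hlow : (2 : ℝ) ^ r * (T.ncard : ℝ) ≤ ∑ θ, G θ := by
    have h1 : (T.ncard : ℝ) = ((Finset.univ.filter fun θ => θ ∈ T).card : ℝ) := by
      rw [Set.ncard_eq_toFinset_card' T]
      congr 2
      ext θ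
      simp
    rw [h1, mul_comm, ← nsmul_eq_mul, ← Finset.sum_const]
    calc ∑ θ ∈ Finset.univ.filter (fun θ => θ ∈ T), (2 : ℝ) ^ r =
          ∑ θ ∈ Finset.univ.filter (fun θ => θ ∈ T), G θ :=
        Finset.sum_congr rfl fun θ hθ => (hGT θ (Finset.mem_filter.1 hθ).2).symm
      _ ≤ ∑ θ, G θ := Finset.sum_le_sum_of_subset_of_nonneg (Finset.filter_subset _ _)
        fun θ _ _ => hG0 θ
  -- the upper bound
  have hsum : ∑ θ, G θ = ∑ c : Fin r → F2, psi (∑ j, c j * y0 j) *
      ∑ θ, ∏ i ∈ Finset.Icc 1 (M - u), fac c i θ := by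
    rw [Finset.sum_congr rfl fun θ _ => hG θ, Finset.sum_comm]
    exact Finset.sum_congr rfl fun c _ => (Finset.mul_sum _ _ _).symm
  obtain ⟨B, hB⟩ : ∃ B : ℝ, B = 2 * (q : ℝ) ^ m / (q : ℝ) ^ u := ⟨_, rfl⟩
  have hB0 : 0 ≤ B := by rw [hB]; positivity
  have hc0 : ∀ c : Fin r → F2, c = 0 → psi (∑ j, c j * y0 j) *
      ∑ θ, ∏ i ∈ Finset.Icc 1 (M - u), fac c i θ = (q : ℝ) ^ m := by
    rintro c rfl
    have h1 : ∀ i θ, fac 0 i θ = 1 := by
      intro i θ
      rw [hfac]
      simp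
    have h2 : ∀ θ : E, ∏ i ∈ Finset.Icc 1 (M - u), fac 0 i θ = 1 := fun θ =>
      Finset.prod_eq_one fun i _ => h1 i θ
    rw [Finset.sum_congr rfl fun θ _ => h2 θ, Finset.sum_const, Finset.card_univ, hcE]
    simp [psi_zero]
  have hc1 : ∀ c : Fin r → F2, c ≠ 0 → psi (∑ j, c j * y0 j) *
      ∑ θ, ∏ i ∈ Finset.Icc 1 (M - u), fac c i θ ≤ B := by
    intro c hc
    obtain ⟨I, hI⟩ : ∃ I, I = (Finset.Icc 1 (M - u)).filter fun i => ∑ j, c j * a i j = 1 := ⟨_, rfl⟩
    have hIne : I.Nonempty := by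
      obtain ⟨i, hi1, hi2, hi3⟩ := hdual c hc
      refine ⟨i, ?_⟩
      rw [hI, Finset.mem_filter]
      refine ⟨Finset.mem_Icc.2 ⟨hi1, hi2⟩, ?_⟩
      rw [ha]
      exact hi3
    have hI1 : ∀ i ∈ I, 1 ≤ i := by
      intro i hi
      rw [hI, Finset.mem_filter, Finset.mem_Icc] at hi
      exact hi.1.1
    obtain ⟨g, hg⟩ : ∃ g : E[X], g = ∏ i ∈ I, (X - X ^ (q ^ i)) := ⟨_, rfl⟩
    have h1 : ∀ θ : E, ∏ i ∈ Finset.Icc 1 (M - u), fac c i θ = (quadraticChar E (g.eval θ) : ℝ) := by
      intro θ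
      have h2 : ∏ i ∈ Finset.Icc 1 (M - u), fac c i θ =
          ∏ i ∈ I, (quadraticChar E (θ - θ ^ (q ^ i)) : ℝ) := by
        rw [hI, Finset.prod_filter]
        exact Finset.prod_congr rfl fun i _ => hfac c i θ
      rw [h2, hg, eval_prod, map_prod]
      push_cast
      refine Finset.prod_congr rfl fun i _ => ?_
      rw [eval_sub, eval_pow, eval_X]
    have hdeg := prod_deg (E := E) q hq2 I hI1
    rw [← hg] at hdeg
    have hd1 : 1 ≤ g.natDegree := by
      rw [hdeg]
      obtain ⟨i, hi⟩ := hIne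
      exact (Nat.one_le_pow _ _ (by omega)).trans
        (Finset.single_le_sum (f := fun i => q ^ i) (fun _ _ => Nat.zero_le _) hi)
    have hd2 : g.natDegree ≤ 2 * q ^ (M - u) := by
      rw [hdeg]
      refine le_trans (Finset.sum_le_sum_of_subset ?_) (geom_le q hq2 (M - u))
      rw [hI]
      exact Finset.filter_subset _ _
    have hW := Pool.Agent.H341R2.Sharp.weil_sharp hcharE g hd1 (fun a h => by
      rw [hg]
      exact not_sq q hq2 hqE I hI1 hIne a h)
    have h3 : (∑ θ, ∏ i ∈ Finset.Icc 1 (M - u), fac c i θ) = ∑ x : E, (quadraticChar E (g.eval x) : ℝ) :=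
      Finset.sum_congr rfl fun θ _ => h1 θ
    rw [h3]
    have h4 : |∑ x : E, (quadraticChar E (g.eval x) : ℝ)| ≤ B := by
      refine hW.trans ?_
      have h5 : Real.sqrt (Fintype.card E) ≤ (q : ℝ) ^ (m - u - (M - u)) := by
        rw [hcE]
        push_cast
        apply Real.sqrt_le_sqrt (x := (q : ℝ) ^ m) (y := ((q : ℝ) ^ (m - u - (M - u))) ^ 2) _ |>.trans
        · rw [Real.sqrt_sq (by positivity)]
        · rw [← pow_mul]
          exact pow_le_pow_right₀ (by exact_mod_cast (by omega : 1 ≤ q)) (by omega)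
      have h6 : (g.natDegree : ℝ) - 1 ≤ 2 * (q : ℝ) ^ (M - u) := by
        have : (g.natDegree : ℝ) ≤ 2 * (q : ℝ) ^ (M - u) := by exact_mod_cast hd2
        linarith
      have h7 : (0 : ℝ) ≤ (g.natDegree : ℝ) - 1 := by
        have : (1 : ℝ) ≤ g.natDegree := by exact_mod_cast hd1
        linarith
      calc ((g.natDegree : ℝ) - 1) * Real.sqrt (Fintype.card E) ≤
            (2 * (q : ℝ) ^ (M - u)) * (q : ℝ) ^ (m - u - (M - u)) :=
          mul_le_mul h6 h5 (Real.sqrt_nonneg _) (by positivity)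
        _ = 2 * (q : ℝ) ^ (m - u) := by
          rw [mul_assoc, ← pow_add]
          congr 2
          omega
        _ = B := by
          rw [hB, eq_div_iff (by positivity), mul_assoc, ← pow_add]
          congr 2
          omega
    rcases F2c (∑ j, c j * y0 j) with h8 | h8
    · rw [h8, psi_zero, one_mul]
      exact (le_abs_self _).trans h4
    · rw [h8, psi_one, neg_one_mul]
      exact (neg_le_abs _).trans h4
  have hup : ∑ θ, G θ ≤ (q : ℝ) ^ m + 2 ^ r * B := by
    rw [hsum, ← Finset.add_sum_erase Finset.univ _ (Finset.mem_univ (0 : Fin r → F2)), hc0 0 rfl]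
    have h1 : ∑ c ∈ Finset.univ.erase (0 : Fin r → F2), psi (∑ j, c j * y0 j) *
        ∑ θ, ∏ i ∈ Finset.Icc 1 (M - u), fac c i θ ≤ ∑ c ∈ Finset.univ.erase (0 : Fin r → F2), B :=
      Finset.sum_le_sum fun c hc => hc1 c (Finset.ne_of_mem_erase hc)
    rw [Finset.sum_const, nsmul_eq_mul] at h1
    have h2 : ((Finset.univ.erase (0 : Fin r → F2)).card : ℝ) ≤ 2 ^ r := by
      have h3 : (Finset.univ.erase (0 : Fin r → F2)).card ≤ 2 ^ r := by
        refine (Finset.card_le_card (Finset.erase_subset _ _)).trans ?_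
        rw [Finset.card_univ, Fintype.card_fun, Fintype.card_fin, ZMod.card]
      exact_mod_cast h3
    have h4 := mul_le_mul_of_nonneg_right h2 hB0
    linarith
  have hfinal := hlow.trans hup
  obtain ⟨W, hW⟩ : ∃ W : ℝ, W = (Nat.card (Submodule.span F2 (β '' Set.Icc 1 M)) : ℝ) := ⟨_, rfl⟩
  have hW0 : 0 < W := by
    rw [hW]
    exact_mod_cast hYfin
  have hWr : W ≤ 2 ^ r * 2 ^ u := by
    rw [hW]
    exact_mod_cast hcard
  rw [← hW]
  have h2r : (0 : ℝ) < 2 ^ r := by positivity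
  have e1 : (T.ncard : ℝ) ≤ (q : ℝ) ^ m / 2 ^ r + B := by
    rw [div_add' _ _ _ h2r.ne', le_div_iff₀ h2r]
    linarith
  have e2 : (q : ℝ) ^ m / 2 ^ r ≤ (q : ℝ) ^ m * (2 ^ u / W) := by
    rw [div_eq_mul_inv]
    apply mul_le_mul_of_nonneg_left _ (by positivity)
    rw [inv_eq_one_div, div_le_div_iff₀ h2r hW0]
    linarith
  have e3 : B = (q : ℝ) ^ m * (2 / (q : ℝ) ^ u) := by
    rw [hB]
    ring
  rw [mul_add, ← e3]
  linarith

end Pool.Agent.Q177.GT
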